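import Mathlib
import Pool.Agent.Lib.MP_ec2aec_co.Defs
import Pool.Agent.Lib.MP_ec2aec_co.Main

set_option autoImplicit false

namespace Pool.Agent.Results.MP_ec2aec_co.LogDegreeTree

open Pool.Agent.Lib.MP_ec2aec_co

/-- For every `t > 0` and all large `n`, the graph `G_{n,k(n)}` has a spanning tree of maximum
degree at most `2 log_2 n + 18`. -/
theorem result (t : ℝ) (ht : 0 < t) :
    ∀ᶠ n : ℕ in Filter.atTop, ∃ T ≤ G n ⌊(n : ℝ) / 2 + t * √n⌋₊, T.IsTree ∧
      ∀ v, (T.neighborSet v).encard ≤ (2 * Nat.log 2 n + 18 : ℕ) :=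
  (eventually_range t ht).mono fun n h => finite_main n _ h.1 h.2

end Pool.Agent.Results.MP_ec2aec_co.LogDegreeTree
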